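import Pool.Agent.helper53.ORT.Spec

set_option autoImplicit false

namespace Pool.Agent.ORT

open Module Pool.Agent.GS

theorem NRM_li {F V : Type} [Field F] [AddCommGroup V] [Module F V]
    {B : LinearMap.BilinForm F V} {k : ℕ} {a : Fin k → V} (ha : Og B a) :
    LinearIndependent F a := by
  rw [Fintype.linearIndependent_iff]
  intro g hg i
  have h1 : B (∑ j, g j • a j) (a i) = 0 := by rw [hg, map_zero, LinearMap.zero_apply]
  rw [map_sum, LinearMap.sum_apply, Finset.sum_eq_single i] at h1
  · rw [map_smul, LinearMap.smul_apply, smul_eq_mul] at h1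
    exact (mul_eq_zero.1 h1).resolve_right (ha.n i)
  · intro j _ hj
    rw [map_smul, LinearMap.smul_apply, ha.o j i hj, smul_zero]
  · intro h
    exact absurd (Finset.mem_univ i) h

theorem NRM (fls : FLS_stmt) (dg : GS.DG_stmt) : NRM_stmt := by
  intro F V _ _ _ _ _ B hchar hB k a ha hsq
  classical
  have hli := NRM_li ha
  set H : Submodule F V := Submodule.span F (Set.range a) with hH
  let β : Basis (Fin k) F H := Basis.span hli
  have hβ : ∀ i, ((β i : H) : V) = a i := fun i => congrArg Subtype.val (Basis.span_apply hli i)
  set b : LinearMap.BilinForm F H := B.domRestrict₁₂ H H with hb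
  have hbap : ∀ x y : H, b x y = B (x : V) (y : V) := fun x y => rfl
  have hSym : Sym b := by
    refine ⟨fun x y => ?_, fun x hx => ?_⟩
    · rw [hbap, hbap, hB.symm]
    · have hr : ∀ i, β.repr x i = 0 := by
        intro i
        have h1 := hx (β i)
        rw [← β.sum_repr x, map_sum, LinearMap.sum_apply, Finset.sum_eq_single i] at h1
        · rw [map_smul, LinearMap.smul_apply, smul_eq_mul, hbap, hβ] at h1
          exact (mul_eq_zero.1 h1).resolve_right (ha.n i)
        · intro j _ hj
          rw [map_smul, LinearMap.smul_apply, hbap, hβ, hβ, ha.o j i hj, smul_zero]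
        · intro h
          exact absurd (Finset.mem_univ i) h
      rw [← β.sum_repr x]
      exact Finset.sum_eq_zero fun i _ => by rw [hr i, zero_smul]
  have hdt : dt b β = ∏ i, B (a i) (a i) := by
    unfold dt
    have : (Matrix.of fun i j => b (β i) (β j)) = Matrix.diagonal fun i => B (a i) (a i) := by
      ext i j
      rw [Matrix.of_apply, hbap, hβ, hβ, Matrix.diagonal_apply]
      split_ifs with h
      · rw [h]
      · exact ha.o i j h
    rw [this, Matrix.det_diagonal]
  obtain ⟨⟨u, hu⟩, -⟩ := dg b hchar hSym β (fun _ => (1 : F)) (fun _ => one_ne_zero) (by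
    rw [hdt, Finset.prod_const_one, mul_one]
    exact hsq)
  have hOg : Og B (fun i => ((u i : H) : V)) := by
    refine ⟨fun i j hij => ?_, fun i => ?_⟩
    · have := hu i j
      rw [if_neg hij, hbap] at this
      exact this
    · have := hu i i
      rw [if_pos rfl, hbap] at this
      rw [this]
      exact one_ne_zero
  refine ⟨fun i => ((u i : H) : V), hOg, fun i => ?_, ?_⟩
  · have := hu i i
    rw [if_pos rfl, hbap] at this
    exact this
  · apply fls B hB _ _ hOg ha
    have h1 : Submodule.map H.subtype (Submodule.span F (Set.range u)) = H := by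
      rw [u.span_eq, Submodule.map_top, Submodule.range_subtype]
    rw [Submodule.map_span, ← Set.range_comp] at h1
    exact h1

end Pool.Agent.ORT
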